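import Pool.Agent.Helper401.OBL.Defs

set_option autoImplicit false

open MeasureTheory Set Filter Topology
open scoped ENNReal NNReal

namespace Pool.Agent.Helper401.OBL

theorem rearr_mono {x y : ℝ →ₘ[leb] ℝ} (h : ∀ᵐ s ∂leb, ‖x s‖ₑ ≤ ‖y s‖ₑ) (t : ℝ) :
    rearr x t ≤ rearr y t := by
  unfold rearr
  apply sInf_le_sInf
  intro l hl
  refine le_trans ?_ (show leb {s | l < ‖y s‖ₑ} ≤ ENNReal.ofReal t from hl)
  apply measure_mono_ae
  filter_upwards [h] with s hs hs2
  exact lt_of_lt_of_le hs2 hs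

theorem rearr_anti (x : ℝ →ₘ[leb] ℝ) : Antitone (rearr x) := by
  intro t t' htt
  unfold rearr
  apply sInf_le_sInf
  intro l hl
  exact le_trans (show leb {s | l < ‖x s‖ₑ} ≤ ENNReal.ofReal t from hl) (ENNReal.ofReal_le_ofReal htt)

theorem rearr_zero (t : ℝ) : rearr 0 t = 0 := by
  unfold rearr
  apply le_antisymm _ zero_le
  apply sInf_le
  show leb {s | (0 : ℝ≥0∞) < ‖(0 : ℝ →ₘ[leb] ℝ) s‖ₑ} ≤ ENNReal.ofReal t
  have h : leb {s | (0 : ℝ≥0∞) < ‖(0 : ℝ →ₘ[leb] ℝ) s‖ₑ} = 0 := by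
    rw [measure_eq_zero_iff_ae_notMem]
    filter_upwards [AEEqFun.coeFn_zero (μ := leb) (β := ℝ) (α := ℝ)] with s hs
    intro hs2
    have hs3 : (0 : ℝ≥0∞) < ‖(0 : ℝ →ₘ[leb] ℝ) s‖ₑ := hs2
    rw [hs] at hs3
    simp at hs3
  rw [h]
  exact zero_le


theorem lnorm_mono (p : ℝ) (q : ℝ≥0∞) {x y : ℝ →ₘ[leb] ℝ} (h : ∀ᵐ s ∂leb, ‖x s‖ₑ ≤ ‖y s‖ₑ) :
    lnorm p q x ≤ lnorm p q y := by
  unfold lnorm
  split_ifs with hq
  · exact iSup₂_mono fun t _ => mul_le_mul_right (rearr_mono h t) _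
  · apply ENNReal.rpow_le_rpow _ (by positivity)
    apply lintegral_mono
    intro t
    simp only
    gcongr
    exact rearr_mono h t

theorem lnorm_zero_lt (p : ℝ) (q : ℝ≥0∞) : lnorm p q 0 < ∞ := by
  unfold lnorm
  simp only [rearr_zero, mul_zero]
  split_ifs with hq
  · simp
  · rcases eq_or_ne q 0 with h0 | h0
    · subst h0
      simp
    · have hpos : 0 < q.toReal := ENNReal.toReal_pos h0 hq
      rw [ENNReal.zero_rpow_of_pos hpos]
      simp [hpos]

theorem rearr_smul_le (x : ℝ →ₘ[leb] ℝ) (c : ℝ) (hc : c ≠ 0) (t : ℝ) :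
    rearr (c • x) t ≤ ENNReal.ofReal |c| * rearr x t := by
  have ha0 : ENNReal.ofReal |c| ≠ 0 := by
    rw [Ne, ENNReal.ofReal_eq_zero, not_le]; positivity
  have hat : ENNReal.ofReal |c| ≠ ∞ := ENNReal.ofReal_ne_top
  have key : rearr (c • x) t / ENNReal.ofReal |c| ≤ rearr x t := by
    conv_rhs => unfold rearr
    apply le_sInf
    intro l hl
    rw [ENNReal.div_le_iff_le_mul (Or.inl ha0) (Or.inl hat)]
    unfold rearr
    apply sInf_le
    show leb {s | l * ENNReal.ofReal |c| < ‖(c • x) s‖ₑ} ≤ ENNReal.ofReal t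
    refine le_trans ?_ (show leb {s | l < ‖x s‖ₑ} ≤ ENNReal.ofReal t from hl)
    apply measure_mono_ae
    filter_upwards [AEEqFun.coeFn_smul c x] with s hs hs2
    have hs3 : l * ENNReal.ofReal |c| < ‖(c • x) s‖ₑ := hs2
    rw [hs, Pi.smul_apply, enorm_smul, Real.enorm_eq_ofReal_abs, mul_comm] at hs3
    exact (ENNReal.mul_lt_mul_iff_right ha0 hat).1 hs3
  rw [ENNReal.div_le_iff_le_mul (Or.inl ha0) (Or.inl hat)] at key
  rwa [mul_comm]

theorem rearr_smul (x : ℝ →ₘ[leb] ℝ) (c : ℝ) (t : ℝ) :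
    rearr (c • x) t = ENNReal.ofReal |c| * rearr x t := by
  rcases eq_or_ne c 0 with rfl | hc
  · rw [zero_smul, rearr_zero]
    simp
  · apply le_antisymm (rearr_smul_le x c hc t)
    have h1 := rearr_smul_le (c • x) c⁻¹ (inv_ne_zero hc) t
    rw [smul_smul, inv_mul_cancel₀ hc, one_smul] at h1
    calc ENNReal.ofReal |c| * rearr x t ≤
        ENNReal.ofReal |c| * (ENNReal.ofReal |c⁻¹| * rearr (c • x) t) := by gcongr
      _ = rearr (c • x) t := by
          rw [← mul_assoc, ← ENNReal.ofReal_mul (abs_nonneg _), ← abs_mul, mul_inv_cancel₀ hc,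
            abs_one, ENNReal.ofReal_one, one_mul]

theorem lnorm_smul (p : ℝ) {q : ℝ≥0∞} (hq : 0 < q) (c : ℝ) (x : ℝ →ₘ[leb] ℝ) :
    lnorm p q (c • x) = ENNReal.ofReal |c| * lnorm p q x := by
  unfold lnorm
  simp only [rearr_smul]
  split_ifs with hqt
  · rw [ENNReal.mul_iSup]
    refine iSup_congr fun t => ?_
    rw [ENNReal.mul_iSup]
    refine iSup_congr fun _ => ?_
    ring
  · have hpos : 0 < q.toReal := ENNReal.toReal_pos hq.ne' hqt
    have h1 : ∀ t : ℝ, (ENNReal.ofReal (t ^ (1 / p)) * (ENNReal.ofReal |c| * rearr x t)) ^ q.toReal *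
        ENNReal.ofReal (1 / t) = (ENNReal.ofReal |c|) ^ q.toReal *
          ((ENNReal.ofReal (t ^ (1 / p)) * rearr x t) ^ q.toReal * ENNReal.ofReal (1 / t)) := by
      intro t
      rw [show ENNReal.ofReal (t ^ (1 / p)) * (ENNReal.ofReal |c| * rearr x t) =
        ENNReal.ofReal |c| * (ENNReal.ofReal (t ^ (1 / p)) * rearr x t) by ring,
        ENNReal.mul_rpow_of_nonneg _ _ hpos.le, mul_assoc]
    simp only [h1]
    rw [lintegral_const_mul' _ _ (ENNReal.rpow_ne_top_of_nonneg hpos.le ENNReal.ofReal_ne_top),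
      ENNReal.mul_rpow_of_nonneg _ _ (by positivity), ← ENNReal.rpow_mul,
      mul_one_div_cancel hpos.ne', ENNReal.rpow_one]

theorem rearr_add (x y : ℝ →ₘ[leb] ℝ) (t : ℝ) :
    rearr (x + y) t ≤ rearr x (t / 2) + rearr y (t / 2) := by
  have key : ∀ l1 l2 : ℝ≥0∞, leb {s | l1 < ‖x s‖ₑ} ≤ ENNReal.ofReal (t / 2) →
      leb {s | l2 < ‖y s‖ₑ} ≤ ENNReal.ofReal (t / 2) → rearr (x + y) t ≤ l1 + l2 := by
    intro l1 l2 h1 h2
    unfold rearr
    apply sInf_le
    show leb {s | l1 + l2 < ‖(x + y) s‖ₑ} ≤ ENNReal.ofReal t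
    have h3 : leb {s | l1 + l2 < ‖(x + y) s‖ₑ} ≤ leb ({s | l1 < ‖x s‖ₑ} ∪ {s | l2 < ‖y s‖ₑ}) := by
      apply measure_mono_ae
      filter_upwards [AEEqFun.coeFn_add x y] with s hs hs2
      have hs3 : l1 + l2 < ‖(x + y) s‖ₑ := hs2
      rw [hs, Pi.add_apply] at hs3
      by_contra hcon
      have hc1 : ¬ l1 < ‖x s‖ₑ := fun h => hcon (Or.inl h)
      have hc2 : ¬ l2 < ‖y s‖ₑ := fun h => hcon (Or.inr h)
      have := (enorm_add_le (x s) (y s)).trans (add_le_add (not_lt.1 hc1) (not_lt.1 hc2))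
      exact absurd hs3 (not_lt.2 this)
    refine h3.trans ((measure_union_le _ _).trans ?_)
    refine (add_le_add h1 h2).trans ?_
    rcases le_or_gt 0 t with ht | ht
    · rw [← ENNReal.ofReal_add (by positivity) (by positivity), add_halves]
    · rw [ENNReal.ofReal_of_nonpos (by linarith : t / 2 ≤ 0)]
      simp
  have h1 : ∀ l1 : ℝ≥0∞, leb {s | l1 < ‖x s‖ₑ} ≤ ENNReal.ofReal (t / 2) →
      rearr (x + y) t ≤ l1 + rearr y (t / 2) := by
    intro l1 hl1
    rw [← tsub_le_iff_left]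
    conv_rhs => unfold rearr
    apply le_sInf
    intro l2 hl2
    rw [tsub_le_iff_left]
    exact key l1 l2 hl1 hl2
  rw [← tsub_le_iff_right]
  conv_rhs => unfold rearr
  apply le_sInf
  intro l1 hl1
  rw [tsub_le_iff_right]
  exact h1 l1 hl1

theorem add_rpow_le' (a b : ℝ≥0∞) {r : ℝ} (hr : 0 ≤ r) :
    (a + b) ^ r ≤ 2 ^ r * (a ^ r + b ^ r) := by
  calc (a + b) ^ r ≤ (2 * max a b) ^ r := by
        apply ENNReal.rpow_le_rpow _ hr
        rw [two_mul]
        exact add_le_add (le_max_left _ _) (le_max_right _ _)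
    _ = 2 ^ r * (max a b) ^ r := ENNReal.mul_rpow_of_nonneg _ _ hr
    _ ≤ 2 ^ r * (a ^ r + b ^ r) := by
        gcongr
        rcases le_total a b with h | h
        · rw [max_eq_right h]; exact le_add_self
        · rw [max_eq_left h]; exact le_self_add

theorem half_pow (p : ℝ) {t : ℝ} (ht : 0 < t) :
    ENNReal.ofReal (t ^ (1 / p)) = ENNReal.ofReal ((2 : ℝ) ^ (1 / p)) *
      ENNReal.ofReal ((t / 2) ^ (1 / p)) := by
  rw [← ENNReal.ofReal_mul (by positivity), ← Real.mul_rpow (by norm_num) (by positivity),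
    mul_div_cancel₀ _ (by norm_num : (2 : ℝ) ≠ 0)]

theorem half_int (p : ℝ) {r : ℝ} (hr : 0 < r) (x : ℝ →ₘ[leb] ℝ)
    (hx : ∫⁻ t in Ioc (0:ℝ) 1, (ENNReal.ofReal (t ^ (1 / p)) * rearr x t) ^ r *
      ENNReal.ofReal (1 / t) < ∞) :
    ∫⁻ t in Ioc (0:ℝ) 1, (ENNReal.ofReal (t ^ (1 / p)) * rearr x (t / 2)) ^ r *
      ENNReal.ofReal (1 / t) < ∞ := by
  set F : ℝ → ℝ≥0∞ := fun t => (ENNReal.ofReal (t ^ (1 / p)) * rearr x (t / 2)) ^ r *
      ENNReal.ofReal (1 / t) with hF
  rw [← lintegral_indicator measurableSet_Ioc]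
  have h2 : (volume : Measure ℝ) = ENNReal.ofReal |(2 : ℝ)| • Measure.map ((2 : ℝ) * ·) volume :=
    (Real.smul_map_volume_mul_left (by norm_num)).symm
  rw [h2, lintegral_smul_measure,
    (measurableEmbedding_mulLeft₀ (by norm_num : (2 : ℝ) ≠ 0)).lintegral_map]
  apply ENNReal.mul_lt_top ENNReal.ofReal_lt_top
  have h3 : ∀ s : ℝ, (Ioc (0 : ℝ) 1).indicator F (2 * s) ≤
      ((ENNReal.ofReal ((2 : ℝ) ^ (1 / p))) ^ r) * (Ioc (0 : ℝ) 1).indicator
        (fun t => (ENNReal.ofReal (t ^ (1 / p)) * rearr x t) ^ r * ENNReal.ofReal (1 / t)) s := by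
    intro s
    by_cases hs : 2 * s ∈ Ioc (0 : ℝ) 1
    · rw [indicator_of_mem hs]
      have hs0 : 0 < s := by have := hs.1; linarith
      have hs1 : s ∈ Ioc (0 : ℝ) 1 := ⟨hs0, by have := hs.2; linarith⟩
      rw [indicator_of_mem hs1, hF]
      simp only
      rw [half_pow p hs.1, mul_div_cancel_left₀ s (by norm_num : (2 : ℝ) ≠ 0), mul_assoc,
        ENNReal.mul_rpow_of_nonneg _ _ hr.le, mul_assoc]
      gcongr
      linarith
    · rw [indicator_of_notMem hs]
      exact zero_le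
  refine (lintegral_mono h3).trans_lt ?_
  rw [lintegral_const_mul' _ _ (ENNReal.rpow_ne_top_of_nonneg hr.le ENNReal.ofReal_ne_top),
    lintegral_indicator measurableSet_Ioc]
  exact ENNReal.mul_lt_top (ENNReal.rpow_lt_top_of_nonneg hr.le ENNReal.ofReal_ne_top) hx

theorem lnorm_add_lt (p : ℝ) (q : ℝ≥0∞) {x y : ℝ →ₘ[leb] ℝ} (hx : lnorm p q x < ∞)
    (hy : lnorm p q y < ∞) : lnorm p q (x + y) < ∞ := by
  by_cases hq : q = ∞
  · have hx' := hx
    have hy' := hy
    unfold lnorm at hx' hy' ⊢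
    rw [if_pos hq] at hx' hy' ⊢
    have h1 : ∀ z : ℝ →ₘ[leb] ℝ, ∀ t ∈ Ioc (0 : ℝ) 1,
        ENNReal.ofReal (t ^ (1 / p)) * rearr z (t / 2) ≤ ENNReal.ofReal ((2 : ℝ) ^ (1 / p)) *
          ⨆ t ∈ Ioc (0:ℝ) 1, ENNReal.ofReal (t ^ (1 / p)) * rearr z t := by
      intro z t ht
      rw [half_pow p ht.1, mul_assoc]
      gcongr
      have ht2 : t / 2 ∈ Ioc (0 : ℝ) 1 := ⟨by have := ht.1; linarith, by have := ht.2; linarith⟩
      exact le_iSup₂ (f := fun t (_ : t ∈ Ioc (0:ℝ) 1) => ENNReal.ofReal (t ^ (1 / p)) * rearr z t)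
        (t / 2) ht2
    have h2 : (⨆ t ∈ Ioc (0:ℝ) 1, ENNReal.ofReal (t ^ (1 / p)) * rearr (x + y) t) ≤
        ENNReal.ofReal ((2 : ℝ) ^ (1 / p)) *
          (⨆ t ∈ Ioc (0:ℝ) 1, ENNReal.ofReal (t ^ (1 / p)) * rearr x t) +
        ENNReal.ofReal ((2 : ℝ) ^ (1 / p)) *
          (⨆ t ∈ Ioc (0:ℝ) 1, ENNReal.ofReal (t ^ (1 / p)) * rearr y t) := by
      refine iSup₂_le fun t ht => ?_
      calc ENNReal.ofReal (t ^ (1 / p)) * rearr (x + y) t ≤
          ENNReal.ofReal (t ^ (1 / p)) * (rearr x (t / 2) + rearr y (t / 2)) := by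
            gcongr
            exact rearr_add x y t
        _ = ENNReal.ofReal (t ^ (1 / p)) * rearr x (t / 2) +
          ENNReal.ofReal (t ^ (1 / p)) * rearr y (t / 2) := by ring
        _ ≤ _ := add_le_add (h1 x t ht) (h1 y t ht)
    refine h2.trans_lt ?_
    exact ENNReal.add_lt_top.2 ⟨ENNReal.mul_lt_top ENNReal.ofReal_lt_top hx',
      ENNReal.mul_lt_top ENNReal.ofReal_lt_top hy'⟩
  · rcases eq_or_ne q 0 with h0 | h0
    · subst h0
      unfold lnorm
      simp
    · have hpos : 0 < q.toReal := ENNReal.toReal_pos h0 hq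
      have hinv : 0 < 1 / q.toReal := by positivity
      unfold lnorm at hx hy ⊢
      rw [if_neg hq] at hx hy ⊢
      rw [ENNReal.rpow_lt_top_iff_of_pos hinv] at hx hy ⊢
      have hx2 := half_int p hpos x hx
      have hy2 := half_int p hpos y hy
      set r := q.toReal with hr
      have hmx : Measurable (fun t : ℝ => (ENNReal.ofReal (t ^ (1 / p)) * rearr x (t / 2)) ^ r *
          ENNReal.ofReal (1 / t)) := by
        have h1 : Measurable (fun t : ℝ => rearr x (t / 2)) :=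
          (rearr_anti x).measurable.comp (measurable_id.div_const 2)
        have h2 : Measurable (fun t : ℝ => ENNReal.ofReal (t ^ (1 / p))) :=
          (measurable_id.pow_const _).ennreal_ofReal
        have h3 : Measurable (fun t : ℝ => ENNReal.ofReal (1 / t)) :=
          (measurable_const.div measurable_id).ennreal_ofReal
        exact ((h2.mul h1).pow_const r).mul h3
      calc ∫⁻ t in Ioc (0:ℝ) 1, (ENNReal.ofReal (t ^ (1 / p)) * rearr (x + y) t) ^ r *
            ENNReal.ofReal (1 / t)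
          ≤ ∫⁻ t in Ioc (0:ℝ) 1, 2 ^ r * (((ENNReal.ofReal (t ^ (1 / p)) * rearr x (t / 2)) ^ r *
            ENNReal.ofReal (1 / t)) + (ENNReal.ofReal (t ^ (1 / p)) * rearr y (t / 2)) ^ r *
            ENNReal.ofReal (1 / t)) := by
            apply lintegral_mono
            intro t
            simp only
            calc (ENNReal.ofReal (t ^ (1 / p)) * rearr (x + y) t) ^ r * ENNReal.ofReal (1 / t)
                ≤ (ENNReal.ofReal (t ^ (1 / p)) * rearr x (t / 2) +
                  ENNReal.ofReal (t ^ (1 / p)) * rearr y (t / 2)) ^ r * ENNReal.ofReal (1 / t) := by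
                  gcongr
                  rw [← mul_add]
                  gcongr
                  exact rearr_add x y t
              _ ≤ (2 ^ r * ((ENNReal.ofReal (t ^ (1 / p)) * rearr x (t / 2)) ^ r +
                  (ENNReal.ofReal (t ^ (1 / p)) * rearr y (t / 2)) ^ r)) * ENNReal.ofReal (1 / t) := by
                  gcongr
                  exact add_rpow_le' _ _ hpos.le
              _ = _ := by ring
        _ = 2 ^ r * ((∫⁻ t in Ioc (0:ℝ) 1, (ENNReal.ofReal (t ^ (1 / p)) * rearr x (t / 2)) ^ r *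
            ENNReal.ofReal (1 / t)) + ∫⁻ t in Ioc (0:ℝ) 1, (ENNReal.ofReal (t ^ (1 / p)) *
              rearr y (t / 2)) ^ r * ENNReal.ofReal (1 / t)) := by
            rw [lintegral_const_mul' _ _ (ENNReal.rpow_ne_top_of_nonneg hpos.le (by norm_num)),
              lintegral_add_left hmx]
        _ < ∞ := by
            apply ENNReal.mul_lt_top (ENNReal.rpow_lt_top_of_nonneg hpos.le (by norm_num))
            exact ENNReal.add_lt_top.2 ⟨hx2, hy2⟩

theorem dist_anti (x : ℝ →ₘ[leb] ℝ) {l l' : ℝ≥0∞} (h : l ≤ l') :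
    leb {s | l' < ‖x s‖ₑ} ≤ leb {s | l < ‖x s‖ₑ} :=
  measure_mono fun _ hs => lt_of_le_of_lt h hs


theorem lt_rearr_iff (x : ℝ →ₘ[leb] ℝ) {t : ℝ} (l : ℝ≥0∞) :
    l < rearr x t ↔ ENNReal.ofReal t < leb {s | l < ‖x s‖ₑ} := by
  constructor
  · intro h
    by_contra hc
    exact absurd (sInf_le (not_lt.mp hc) : rearr x t ≤ l) (not_le.mpr h)
  · intro h
    have hl : l < ⊤ := by
      rw [lt_top_iff_ne_top]
      rintro rfl
      have : {s | (⊤ : ℝ≥0∞) < ‖x s‖ₑ} = ∅ := by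
        ext s; simp
      rw [this, measure_empty] at h
      exact absurd h not_lt_zero
    obtain ⟨u, hu1, hu2, hu3⟩ := exists_seq_strictAnti_tendsto' hl
    have hU : {s | l < ‖x s‖ₑ} = ⋃ n, {s | u n < ‖x s‖ₑ} := by
      ext s
      simp only [mem_iUnion]
      constructor
      · intro hs
        have hs' : l < ‖x s‖ₑ := hs
        obtain ⟨n, hn⟩ := (hu3.eventually (gt_mem_nhds hs')).exists
        exact ⟨n, hn⟩
      · rintro ⟨n, hn⟩
        exact lt_trans (hu2 n).1 hn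
    have hmono : Monotone fun n => {s | u n < ‖x s‖ₑ} := by
      intro a b hab s hs
      exact lt_of_le_of_lt (hu1.antitone hab) hs
    rw [hU, hmono.measure_iUnion, lt_iSup_iff] at h
    obtain ⟨n, hn⟩ := h
    refine lt_of_lt_of_le (hu2 n).1 ?_
    unfold rearr
    refine le_sInf fun k hk => ?_
    by_contra hc
    exact absurd (lt_of_lt_of_le hn ((dist_anti x (not_le.mp hc).le).trans hk)) (lt_irrefl _)

theorem lint_Ioo (R : ℝ) (hR : 0 ≤ R) (c : ℝ) (hc : 0 ≤ c) (n : ℕ) :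
    ∫⁻ l in Ioo (0:ℝ) R, ENNReal.ofReal (c * l ^ n) = ENNReal.ofReal (c * (R ^ (n + 1) / (n + 1))) := by
  rw [← ofReal_integral_eq_lintegral_ofReal]
  · congr 1
    rw [← integral_Ioc_eq_integral_Ioo, ← intervalIntegral.integral_of_le hR,
      intervalIntegral.integral_const_mul, integral_pow]
    simp
  · have : IntervalIntegrable (fun l : ℝ => c * l ^ n) volume 0 R :=
      (by fun_prop : Continuous fun l : ℝ => c * l ^ n).intervalIntegrable _ _
    rw [intervalIntegrable_iff_integrableOn_Ioo_of_le hR] at this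
    exact this
  · filter_upwards [ae_restrict_mem measurableSet_Ioo] with l hl
    have := hl.1.le
    positivity

theorem cube (r : ℝ≥0∞) : r ^ (3 : ℝ) =
    ∫⁻ l in Ioi (0:ℝ), if ENNReal.ofReal l < r then ENNReal.ofReal (3 * l ^ 2) else 0 := by
  by_cases hr : r = ⊤
  · subst hr
    rw [ENNReal.top_rpow_of_pos (by norm_num), eq_comm, eq_top_iff]
    calc (⊤ : ℝ≥0∞) = ∫⁻ l in Ioi (1:ℝ), 1 := by
          rw [setLIntegral_const, Real.volume_Ioi, one_mul]
      _ ≤ ∫⁻ l in Ioi (1:ℝ), if ENNReal.ofReal l < ⊤ then ENNReal.ofReal (3 * l ^ 2) else 0 := by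
          refine setLIntegral_mono' measurableSet_Ioi fun l hl => ?_
          rw [if_pos ENNReal.ofReal_lt_top, ← ENNReal.ofReal_one]
          refine ENNReal.ofReal_le_ofReal ?_
          have : (1:ℝ) < l := hl
          nlinarith
      _ ≤ _ := lintegral_mono_set (Ioi_subset_Ioi zero_le_one)
  · have h1 : ∀ l ∈ Ioi (0:ℝ), (if ENNReal.ofReal l < r then ENNReal.ofReal (3 * l ^ 2) else 0) =
        (Iio r.toReal).indicator (fun l => ENNReal.ofReal (3 * l ^ 2)) l := by
      intro l hl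
      have : ENNReal.ofReal l < r ↔ l < r.toReal :=
        ENNReal.ofReal_lt_iff_lt_toReal (le_of_lt hl) hr
      by_cases h : l < r.toReal
      · rw [if_pos (this.mpr h), indicator_of_mem (show l ∈ Iio _ from h)]
      · rw [if_neg (fun hh => h (this.mp hh)), indicator_of_notMem (show l ∉ Iio _ from h)]
    rw [setLIntegral_congr_fun measurableSet_Ioi h1, lintegral_indicator measurableSet_Iio,
      Measure.restrict_restrict measurableSet_Iio]
    have h2 : Iio r.toReal ∩ Ioi (0:ℝ) = Ioo 0 r.toReal := by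
      ext l; simp [and_comm]
    rw [h2, lint_Ioo _ ENNReal.toReal_nonneg 3 (by norm_num) 2]
    have h3 : (3:ℝ) * (r.toReal ^ (2 + 1) / ((2:ℕ) + 1)) = r.toReal ^ (3:ℝ) := by
      rw [show (3:ℝ) = ((3:ℕ):ℝ) by norm_num, Real.rpow_natCast]
      push_cast
      ring
    rw [h3, ← ENNReal.ofReal_rpow_of_nonneg ENNReal.toReal_nonneg (by norm_num),
      ENNReal.ofReal_toReal hr]

theorem half (m : ℝ≥0∞) (hm : m ≤ 1) :
    ∫⁻ t in Ioc (0:ℝ) 1, (if ENNReal.ofReal t < m then ENNReal.ofReal t else 0) =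
      ENNReal.ofReal (m.toReal ^ 2 / 2) := by
  have hmt : m ≠ ⊤ := ne_of_lt (lt_of_le_of_lt hm ENNReal.one_lt_top)
  have h1 : ∀ l ∈ Ioc (0:ℝ) 1, (if ENNReal.ofReal l < m then ENNReal.ofReal l else 0) =
      (Iio m.toReal).indicator (fun l => ENNReal.ofReal l) l := by
    intro l hl
    have : ENNReal.ofReal l < m ↔ l < m.toReal :=
      ENNReal.ofReal_lt_iff_lt_toReal hl.1.le hmt
    by_cases h : l < m.toReal
    · rw [if_pos (this.mpr h), indicator_of_mem (show l ∈ Iio _ from h)]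
    · rw [if_neg (fun hh => h (this.mp hh)), indicator_of_notMem (show l ∉ Iio _ from h)]
  have hm1 : m.toReal ≤ 1 := by
    have := ENNReal.toReal_mono ENNReal.one_ne_top hm
    simpa using this
  rw [setLIntegral_congr_fun measurableSet_Ioc h1, lintegral_indicator measurableSet_Iio,
    Measure.restrict_restrict measurableSet_Iio]
  have h2 : Iio m.toReal ∩ Ioc (0:ℝ) 1 = Ioo 0 m.toReal := by
    ext l
    simp only [mem_inter_iff, mem_Iio, mem_Ioc, mem_Ioo]
    constructor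
    · rintro ⟨a, b, c⟩; exact ⟨b, a⟩
    · rintro ⟨a, b⟩; exact ⟨b, a, by linarith⟩
  rw [h2]
  have h3 := lint_Ioo m.toReal ENNReal.toReal_nonneg 1 zero_le_one 1
  simp only [one_mul, pow_one] at h3
  rw [h3]
  congr 1
  norm_num

/-- the Lorentz norm for p=3/2, q=3 through the distribution function -/
theorem lint_eq (x : ℝ →ₘ[leb] ℝ) :
    ∫⁻ t in Ioc (0:ℝ) 1, (ENNReal.ofReal (t ^ (1 / (3 / 2 : ℝ))) * rearr x t) ^ (3 : ℝ) *
      ENNReal.ofReal (1 / t) =
    ENNReal.ofReal (3 / 2) *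
      ∫⁻ l in Ioi (0:ℝ), ENNReal.ofReal (l ^ 2 * (leb.real {y | l < |x y|}) ^ 2) := by
  have hleb1 : leb univ = 1 := by
    unfold leb; simp
  have hm1 : ∀ s : Set ℝ, leb s ≤ 1 := fun s => hleb1 ▸ measure_mono (subset_univ s)
  have hrm : Measurable (rearr x) := (rearr_anti x).measurable
  have e1 : ∀ t ∈ Ioc (0:ℝ) 1, (ENNReal.ofReal (t ^ (1 / (3 / 2 : ℝ))) * rearr x t) ^ (3 : ℝ) *
      ENNReal.ofReal (1 / t) =
      ∫⁻ l in Ioi (0:ℝ), if ENNReal.ofReal l < rearr x t then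
        ENNReal.ofReal t * ENNReal.ofReal (3 * l ^ 2) else 0 := by
    intro t ht
    have ht0 : 0 < t := ht.1
    rw [ENNReal.mul_rpow_of_nonneg _ _ (by norm_num), cube (rearr x t),
      ENNReal.ofReal_rpow_of_nonneg (by positivity) (by norm_num), ← Real.rpow_mul ht0.le]
    have e2 : ENNReal.ofReal (t ^ (1 / (3 / 2 : ℝ) * 3)) * ENNReal.ofReal (1 / t) =
        ENNReal.ofReal t := by
      rw [← ENNReal.ofReal_mul (by positivity)]
      congr 1
      rw [show (1 / (3 / 2 : ℝ) * 3) = ((2:ℕ):ℝ) by norm_num, Real.rpow_natCast]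
      field_simp
    rw [mul_right_comm, e2, ← lintegral_const_mul' _ _ ENNReal.ofReal_ne_top]
    refine lintegral_congr fun l => ?_
    rw [mul_ite, mul_zero]
  rw [setLIntegral_congr_fun measurableSet_Ioc e1]
  rw [lintegral_lintegral_swap]
  · rw [← lintegral_const_mul' _ _ ENNReal.ofReal_ne_top]
    refine setLIntegral_congr_fun measurableSet_Ioi fun l hl => ?_
    have hl0 : 0 < l := hl
    have hset : {s | ENNReal.ofReal l < ‖x s‖ₑ} = {y | l < |x y|} := by
      ext y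
      rw [mem_ofPred_eq, mem_ofPred_eq, Real.enorm_eq_ofReal_abs]
      exact ENNReal.ofReal_lt_ofReal_iff_of_nonneg hl0.le
    have e3 : ∀ t : ℝ, (if ENNReal.ofReal l < rearr x t then
        ENNReal.ofReal t * ENNReal.ofReal (3 * l ^ 2) else 0) =
        ENNReal.ofReal (3 * l ^ 2) *
          (if ENNReal.ofReal t < leb {y | l < |x y|} then ENNReal.ofReal t else 0) := by
      intro t
      have := lt_rearr_iff x (t := t) (ENNReal.ofReal l)
      rw [hset] at this
      by_cases h : ENNReal.ofReal t < leb {y | l < |x y|}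
      · rw [if_pos (this.mpr h), if_pos h, mul_comm]
      · rw [if_neg (fun hh => h (this.mp hh)), if_neg h, mul_zero]
    simp_rw [e3]
    rw [lintegral_const_mul' _ _ ENNReal.ofReal_ne_top, half _ (hm1 _), Measure.real,
      ← ENNReal.ofReal_mul (by positivity), ← ENNReal.ofReal_mul (by norm_num)]
    congr 1
    ring
  · refine Measurable.aemeasurable ?_
    refine Measurable.ite ?_ (by fun_prop) measurable_const
    exact measurableSet_lt (ENNReal.measurable_ofReal.comp measurable_snd)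
      (hrm.comp measurable_fst)

end Pool.Agent.Helper401.OBL

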