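import Pool.Agent.Helper401.OBL.Lemmas
import Pool.Agent.Helper401.OB.Lower

/-!
The operator `TT` of `Helper401.OB` belongs to `D(L^{3/2,3})`.
-/

set_option autoImplicit false

open MeasureTheory Set Filter Topology
open scoped ENNReal NNReal

namespace Pool.Agent.Helper401.OBL

open Pool.Agent.Helper401

theorem Q_coe (e : Set ℝ) (he : MeasurableSet e) (x : ℝ →ₘ[leb] ℝ) :
    Q e he x =ᵐ[leb] e.indicator x := AEEqFun.coeFn_mk _ _

theorem lnorm_eq (x : ℝ →ₘ[leb] ℝ) :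
    lnorm (3 / 2) 3 x = (ENNReal.ofReal (3 / 2) * OB.A x) ^ (1 / 3 : ℝ) := by
  unfold lnorm
  rw [if_neg (by norm_num), ENNReal.toReal_ofNat, lint_eq]
  rfl

theorem lnorm_lt_iff (x : ℝ →ₘ[leb] ℝ) : lnorm (3 / 2) 3 x < ∞ ↔ OB.A x ≠ ∞ := by
  rw [lnorm_eq, ENNReal.rpow_lt_top_iff_of_pos (by norm_num)]
  constructor
  · intro h h2
    rw [h2, ENNReal.mul_top (by simp)] at h
    exact lt_irrefl _ h
  · intro h
    exact ENNReal.mul_lt_top ENNReal.ofReal_lt_top h.lt_top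

theorem mem_fin {x : ℝ →ₘ[leb] ℝ} (hx : x ∈ Lor (3 / 2) 3) : OB.A x ≠ ∞ := (lnorm_lt_iff _).1 hx

theorem TT_meas {x : ℝ →ₘ[leb] ℝ} (hx : x ∈ Lor (3 / 2) 3) :
    AEStronglyMeasurable (OB.TT x) leb :=
  (OB.TT_aemeas x.measurable (mem_fin hx)).aestronglyMeasurable

open Classical in
/-- the operator with large blocks -/
noncomputable def opT (x : ℝ →ₘ[leb] ℝ) : ℝ →ₘ[leb] ℝ :=
  if h : x ∈ Lor (3 / 2) 3 then AEEqFun.mk (OB.TT x) (TT_meas h) else 0

theorem opT_coe {x : ℝ →ₘ[leb] ℝ} (hx : x ∈ Lor (3 / 2) 3) : opT x =ᵐ[leb] OB.TT x := by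
  unfold opT
  rw [dif_pos hx]
  exact AEEqFun.coeFn_mk _ _

theorem A_opT {x : ℝ →ₘ[leb] ℝ} (hx : x ∈ Lor (3 / 2) 3) : OB.A (opT x) = OB.A (OB.TT x) :=
  OB.A_congr (opT_coe hx)

theorem opT_mem {x : ℝ →ₘ[leb] ℝ} (hx : x ∈ Lor (3 / 2) 3) : opT x ∈ Lor (3 / 2) 3 := by
  show lnorm (3 / 2) 3 (opT x) < ∞
  rw [lnorm_lt_iff, A_opT hx]
  exact ne_top_of_le_ne_top (ENNReal.mul_ne_top ENNReal.ofReal_ne_top (mem_fin hx))
    (OB.TT_A x.measurable (mem_fin hx))

theorem opn_lt : opn (3 / 2) 3 opT < ∞ := by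
  refine lt_of_le_of_lt (b := (ENNReal.ofReal 100000000000000000000) ^ (1 / 3 : ℝ)) ?_
    (ENNReal.rpow_lt_top_of_nonneg (by norm_num) ENNReal.ofReal_ne_top)
  unfold opn
  refine iSup₂_le fun x hx => ?_
  have hmem : x ∈ Lor (3 / 2) 3 := lt_of_le_of_lt hx ENNReal.one_lt_top
  rw [lnorm_eq] at hx ⊢
  apply ENNReal.rpow_le_rpow _ (by norm_num)
  rw [A_opT hmem]
  have h1 : ENNReal.ofReal (3 / 2) * OB.A x ≤ 1 := by
    by_contra hcon
    push Not at hcon
    exact absurd hx (not_le.2 (ENNReal.one_lt_rpow hcon (by norm_num)))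
  calc ENNReal.ofReal (3 / 2) * OB.A (OB.TT x)
      ≤ ENNReal.ofReal (3 / 2) * (ENNReal.ofReal 100000000000000000000 * OB.A x) := by
        gcongr
        exact OB.TT_A x.measurable (mem_fin hmem)
    _ = ENNReal.ofReal 100000000000000000000 * (ENNReal.ofReal (3 / 2) * OB.A x) := by ring
    _ ≤ ENNReal.ofReal 100000000000000000000 * 1 := by gcongr
    _ = _ := mul_one _

theorem opT_lin : IsBddLin (3 / 2) 3 opT := by
  refine ⟨fun x hx => opT_mem hx, fun x hx y hy => ?_, fun c x hx => ?_, opn_lt⟩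
  · have hxy : x + y ∈ Lor (3 / 2) 3 := lnorm_add_lt _ _ hx hy
    apply AEEqFun.ext
    have h := OB.TT_congr (f := (x + y : ℝ →ₘ[leb] ℝ)) (g := fun s => x s + y s)
      (AEEqFun.coeFn_add x y)
    have h2 : OB.TT (fun s => x s + y s) =ᵐ[leb] fun s => OB.TT x s + OB.TT y s :=
      OB.TT_add x.measurable y.measurable (mem_fin hx) (mem_fin hy)
    filter_upwards [opT_coe hxy, opT_coe hx, opT_coe hy, AEEqFun.coeFn_add (opT x) (opT y), h2]
      with s h3 h4 h5 h6 h7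
    rw [h3, h, h7, h6, Pi.add_apply, h4, h5]
  · have hcx : c • x ∈ Lor (3 / 2) 3 := by
      show lnorm (3 / 2) 3 (c • x) < ∞
      rw [lnorm_smul (3 / 2) (by norm_num)]
      exact ENNReal.mul_lt_top ENNReal.ofReal_lt_top hx
    apply AEEqFun.ext
    have h := OB.TT_congr (f := (c • x : ℝ →ₘ[leb] ℝ)) (g := fun s => c * x s)
      (AEEqFun.coeFn_smul c x)
    filter_upwards [opT_coe hcx, opT_coe hx, AEEqFun.coeFn_smul c (opT x)] with s h3 h4 h5
    rw [h3, h, OB.TT_smul, h5, Pi.smul_apply, h4, smul_eq_mul]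

theorem sigma_pos : 0 < sigma (3 / 2) 3 opT := by
  refine lt_of_lt_of_le (b := ENNReal.ofReal (1 / 100))
    (ENNReal.ofReal_pos.2 (by norm_num)) ?_
  unfold sigma
  refine le_iInf fun e => le_iInf fun f => le_iInf fun he => le_iInf fun hf =>
    le_iInf fun he1 => le_iInf fun hf1 => le_iInf fun hpos => ?_
  have hve : ∀ s : Set ℝ, s ⊆ Icc 0 1 → MeasurableSet s → OB.mu s = volume s := by
    intro s hs hsm
    unfold OB.mu
    rw [Measure.restrict_apply hsm, inter_eq_left.2 hs]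
  have he0 : OB.mu e ≠ 0 := by
    rw [hve e he1 he]
    intro h
    rw [h, zero_mul] at hpos
    exact lt_irrefl _ hpos
  have hf0 : OB.mu f ≠ 0 := by
    rw [hve f hf1 hf]
    intro h
    rw [h, mul_zero] at hpos
    exact lt_irrefl _ hpos
  obtain ⟨g, hgm, hgA, hlow⟩ := OB.lower he hf he0 hf0
  have hgfin : OB.A g ≠ ∞ := ne_top_of_le_ne_top (by norm_num) hgA
  -- the test vector
  set z : ℝ → ℝ := fun s => (1 / 10) * g s with hz
  have hzm : Measurable z := hgm.const_mul _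
  have hzA : OB.A z = ENNReal.ofReal (1 / 1000) * OB.A g := by
    rw [hz, OB.A_smul]
    congr 2
    rw [abs_of_pos (by norm_num)]
    norm_num
  set x : ℝ →ₘ[leb] ℝ := AEEqFun.mk z hzm.aestronglyMeasurable with hx
  have hxc : x =ᵐ[leb] z := AEEqFun.coeFn_mk _ _
  have hxA : OB.A x = ENNReal.ofReal (1 / 1000) * OB.A g := by
    rw [← hzA]
    exact OB.A_congr hxc
  have hle : lnorm (3 / 2) 3 x ≤ 1 := by
    rw [lnorm_eq, hxA]
    refine ENNReal.rpow_le_one ?_ (by norm_num)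
    calc ENNReal.ofReal (3 / 2) * (ENNReal.ofReal (1 / 1000) * OB.A g)
        ≤ ENNReal.ofReal (3 / 2) * (ENNReal.ofReal (1 / 1000) * ENNReal.ofReal 600) := by
          gcongr
          simpa using hgA
      _ ≤ 1 := by
          rw [← ENNReal.ofReal_mul (by norm_num), ← ENNReal.ofReal_mul (by norm_num),
            ← ENNReal.ofReal_one]
          apply ENNReal.ofReal_le_ofReal
          norm_num
  -- the restricted test vector
  have h1 : Q f hf x =ᵐ[leb] fun s => (1 / 10) * f.indicator g s := by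
    filter_upwards [Q_coe f hf x, hxc] with s h3 h4
    rw [h3]
    by_cases h : s ∈ f
    · simp only [indicator_of_mem h]
      rw [h4]
    · simp only [indicator_of_notMem h, mul_zero]
  have hmem : Q f hf x ∈ Lor (3 / 2) 3 := by
    show lnorm (3 / 2) 3 (Q f hf x) < ∞
    have h2 : OB.A (Q f hf x) = OB.A (fun s => (1 / 10) * f.indicator g s) := OB.A_congr h1
    rw [lnorm_lt_iff, h2, OB.A_smul]
    exact ENNReal.mul_ne_top ENNReal.ofReal_ne_top
      (ne_top_of_le_ne_top hgfin (OB.A_indicator_le f g))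
  have h2 : Q e he (opT (Q f hf x)) =ᵐ[leb]
      fun s => (1 / 10) * e.indicator (OB.TT (f.indicator g)) s := by
    filter_upwards [Q_coe e he (opT (Q f hf x)), opT_coe hmem] with s h4 h5
    rw [h4]
    by_cases h : s ∈ e
    · simp only [indicator_of_mem h]
      rw [h5, OB.TT_congr h1, OB.TT_smul]
    · simp only [indicator_of_notMem h, mul_zero]
  unfold opn
  refine le_trans ?_ (le_iSup₂ (f := fun (x : ℝ →ₘ[leb] ℝ) (_ : lnorm (3 / 2) 3 x ≤ 1) =>
      lnorm (3 / 2) 3 (Q e he (opT (Q f hf x)))) x hle)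
  have h2' : OB.A (Q e he (opT (Q f hf x))) =
    OB.A (fun s => (1 / 10) * e.indicator (OB.TT (f.indicator g)) s) := OB.A_congr h2
  rw [lnorm_eq, h2', OB.A_smul]
  have h3 : ENNReal.ofReal ((1 / 100) ^ 3) ≤ ENNReal.ofReal (3 / 2) *
      (ENNReal.ofReal (|(1 / 10 : ℝ)| ^ 3) * OB.A (e.indicator (OB.TT (f.indicator g)))) := by
    calc ENNReal.ofReal ((1 / 100) ^ 3) ≤ ENNReal.ofReal (3 / 2) *
        (ENNReal.ofReal (|(1 / 10 : ℝ)| ^ 3) * ENNReal.ofReal (1 / 200)) := by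
          rw [← ENNReal.ofReal_mul (by positivity), ← ENNReal.ofReal_mul (by norm_num)]
          apply ENNReal.ofReal_le_ofReal
          rw [abs_of_pos (by norm_num)]
          norm_num
      _ ≤ _ := by gcongr
  have h4 : ENNReal.ofReal (1 / 100) = (ENNReal.ofReal ((1 / 100) ^ 3)) ^ (1 / 3 : ℝ) := by
    rw [ENNReal.ofReal_pow (by norm_num), ← ENNReal.rpow_natCast, ← ENNReal.rpow_mul]
    norm_num
  rw [h4]
  exact ENNReal.rpow_le_rpow h3 (by norm_num)

theorem D_nonempty : (D (3 / 2) 3).Nonempty := ⟨opT, opT_lin, sigma_pos⟩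

end Pool.Agent.Helper401.OBL
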